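import Pool.Agent.H27.L1.H55.GA.EIA
import Pool.Agent.H27.L1.H68.GHY.Targets

/-!
Row UNF of the board ghy: unfolding with a coefficient function. Model:
Pool/Agent/H55/GA/OCA.lean (helper55).
-/

set_option autoImplicit false

namespace Pool.Agent.H27.L1.H96.GHY

open MeasureTheory Pool.Agent.H27.L1.H34.GM Pool.Agent.H27.L1.H34.GZ Pool.Agent.H27.L1.H34.GU Pool.Agent.H27.L1.H34.GA
open Pool.Agent.H27.L1.H68.GHY Pool.Agent.H27.L1.H55.GA

theorem pf_UNF : T_UNZ → T_EZA → T_ALU → T_ALZ → Pool.Agent.H27.L1.H68.GHY.T_UNF := by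
  intro hUNZ hEZ1 hALU hALZ m N _ T D hS F lam hF Φ hΦ f X hfu hfX g x hg
  have hm1 : 1 ≤ m := hS.one_le
  obtain ⟨⟨⟨hR1, hRm⟩, hRd⟩, -, -, -, hun, -, -⟩ :=
    hALZ m N hm1 hS.two_le
  have hac := (hALU m N hm1 hS.two_le).2.1
  have hun1 : ∀ γ : ZM m, IsUnit γ → γ.det.natAbs = 1 := fun γ hγ => (hun γ).1 hγ
  have hUN := (hUNZ m hm1 D hS.dom).2
  have hmz : (m : ℝ) ≠ 0 := by positivity
  have hdm : ∀ z ∈ D, (mt z).det ≠ 0 := by
    intro z hz h0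
    have h1 := (hS.dom.shell z hz).1
    unfold aN at h1
    rw [h0, abs_zero, Real.zero_rpow (one_div_ne_zero hmz)] at h1
    norm_num at h1
  have hT1 : ∀ n ∈ Finset.Icc 1 ⌊X⌋₊, ∀ ρ ∈ T n,
      1 ≤ n ∧ ρ.det.natAbs = n ∧ (cR ρ).det ≠ 0 ∧ ρ.det ≠ 0 := by
    intro n hn ρ hρ
    obtain ⟨h1, h1'⟩ := Finset.mem_Icc.mp hn
    have h2 := hS.reps.mem n h1 ρ hρ
    refine ⟨h1, h2, ?_, ?_⟩
    · intro h3
      have h4 := (hRd ρ).2
      rw [h3, abs_zero, h2] at h4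
      have h5 : (1 : ℝ) ≤ n := by exact_mod_cast h1
      linarith
    · intro h3
      rw [h3, Int.natAbs_zero] at h2
      omega
  have hfj : ∀ n ∈ Finset.Icc 1 ⌊X⌋₊, ∀ ρ ∈ T n,
      IntegrableOn (fun z : V m =>
        f ρ * (Φ (kk (aN (cR ρ)) (mt z) (cR ρ) g) * F (mt z) (ac N ρ x)))
        (Shell m) (hm m) ∧
      ∫ z in Shell m, f ρ * (Φ (kk (aN (cR ρ)) (mt z) (cR ρ) g) * F (mt z) (ac N ρ x))
        ∂(hm m) = f ρ * Rr Φ 1 F (cR ρ * g) (ac N ρ x) := by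
    intro n hn ρ hρ
    obtain ⟨h1, h3, h4, -⟩ := hT1 n hn ρ hρ
    have h6 := ei_aN_pos h4
    have h5 := hEZ1 m N T D hS F lam hF Φ hΦ (cR ρ) g (aN (cR ρ)) (ac N ρ x) h4 hg h6
    refine ⟨h5.1.const_mul (f ρ), ?_⟩
    rw [integral_const_mul, h5.2, mul_inv_cancel₀ h6.ne']
  have hae : ∀ᵐ z ∂((hm m).restrict D), ∀ n ∈ Finset.Icc 1 ⌊X⌋₊, ∀ ρ ∈ T n,
      Summable fun γ : {γ : ZM m // IsUnit γ} =>
        f ρ * (Φ (kk (aN (cR ρ)) (mt (fun i j => (cR γ.1 * mt z) i j)) (cR ρ) g) *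
          F (mt (fun i j => (cR γ.1 * mt z) i j)) (ac N ρ x)) := by
    rw [Filter.eventually_all_finset]
    intro n hn
    rw [Filter.eventually_all_finset]
    intro ρ hρ
    exact (hUN _ (hfj n hn ρ hρ).1).2.1
  have hkey : ∀ᵐ z ∂((hm m).restrict D),
      ∑' α : ZM m, f α * (Φ (kk (aN (cR α)) (mt z) (cR α) g) * F (mt z) (ac N α x)) =
      ∑ n ∈ Finset.Icc 1 ⌊X⌋₊, ∑ ρ ∈ T n, ∑' γ : {γ : ZM m // IsUnit γ},
        f ρ * (Φ (kk (aN (cR ρ)) (mt (fun i j => (cR γ.1 * mt z) i j)) (cR ρ) g) *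
          F (mt (fun i j => (cR γ.1 * mt z) i j)) (ac N ρ x)) := by
    filter_upwards [hae, ae_restrict_mem hS.dom.meas] with z hz hzD
    have hzd := hdm z hzD
    have hpt : ∀ n ∈ Finset.Icc 1 ⌊X⌋₊, ∀ ρ ∈ T n, ∀ γ : {γ : ZM m // IsUnit γ},
        f ρ * (Φ (kk (aN (cR ρ)) (mt (fun i j => (cR γ.1 * mt z) i j)) (cR ρ) g) *
          F (mt (fun i j => (cR γ.1 * mt z) i j)) (ac N ρ x)) =
        f (Ring.inverse γ.1 * ρ) *
          (Φ (kk (aN (cR (Ring.inverse γ.1 * ρ))) (mt z) (cR (Ring.inverse γ.1 * ρ)) g) *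
          F (mt z) (ac N (Ring.inverse γ.1 * ρ) x)) := by
      intro n hn ρ hρ γ
      obtain ⟨h1, h2, h3, h4⟩ := hT1 n hn ρ hρ
      have hg1 := ei_inv γ.2
      have hd : (Ring.inverse γ.1 * ρ).det.natAbs = n := by
        rw [Matrix.det_mul, Int.natAbs_mul, hun1 _ hg1.1, one_mul, h2]
      have hdR : aN (cR (Ring.inverse γ.1 * ρ)) = aN (cR ρ) := by
        unfold aN
        rw [(hRd _).2, (hRd _).2, hd, h2]
      rw [hdR, hfu _ ρ hg1.1 h4]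
      have e1 : mt (fun i j => (cR γ.1 * mt z) i j) = cR γ.1 * mt z := rfl
      have hdγ : |(cR γ.1).det| = 1 := by
        rw [(hRd γ.1).2, hun1 _ γ.2, Nat.cast_one]
      have e0 : (cR γ.1)⁻¹ = cR (Ring.inverse γ.1) := by
        apply Matrix.inv_eq_right_inv
        rw [← (hRm _ _).1, hg1.2.1, hR1]
      rw [e1, ei_kk _ (mt z) (cR γ.1) (cR ρ) g hdγ, e0, ← (hRm _ _).1]
      have e2 : ac N ρ x = ac N γ.1 (ac N (Ring.inverse γ.1 * ρ) x) := by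
        rw [← (hac _ _ _).1, ← mul_assoc, hg1.2.1, one_mul]
      rw [e2, hF.auto _ γ.2 _ _ hzd]
    rw [ei_sum hS.reps hun1 ⌊X⌋₊
      (fun α => f α * (Φ (kk (aN (cR α)) (mt z) (cR α) g) * F (mt z) (ac N α x)))]
    · apply Finset.sum_congr rfl
      intro n hn
      apply Finset.sum_congr rfl
      intro ρ hρ
      exact tsum_congr fun γ => (hpt n hn ρ hρ γ).symm
    · intro α hα
      have h1 : f α = 0 := by
        by_contra h2
        exact (hfX α h2).1 hα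
      simp only [h1, zero_mul]
    · intro α hne
      have h1 : f α ≠ 0 := fun h2 => hne (by simp only [h2, zero_mul])
      exact Nat.le_floor (hfX α h1).2
    · intro n hn ρ hρ
      refine (hz n hn ρ hρ).congr ?_
      intro γ
      exact hpt n hn ρ hρ γ
  rw [integral_congr_ae hkey, integral_finsetSum]
  · apply Finset.sum_congr rfl
    intro n hn
    rw [integral_finsetSum]
    · apply Finset.sum_congr rfl
      intro ρ hρ
      rw [← (hfj n hn ρ hρ).2]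
      exact (hUN _ (hfj n hn ρ hρ).1).2.2.symm
    · intro ρ hρ
      exact (hUN _ (hfj n hn ρ hρ).1).1
  · intro n hn
    apply integrable_finsetSum
    intro ρ hρ
    exact (hUN _ (hfj n hn ρ hρ).1).1

end Pool.Agent.H27.L1.H96.GHY
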